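import Pool.Agent.GRH.P_GRW

set_option autoImplicit false

/-! GAE: growth almost everywhere -/

namespace Pool.Agent.GRH

open MeasureTheory FourierTransform Set Filter Topology
open scoped ENNReal NNReal
open Pool.Agent.MBS (E ex S Sstar)

namespace GAE_

open LAC_ (ex_norm ex_cont int_ex lp_sq)
open GRW_ (LL_one LL_mono BG_cont)

lemma LL_tendsto : Tendsto LL atTop atTop := by
  unfold LL
  have h1 : Tendsto (fun R : ℝ => Real.log (3 + R)) atTop atTop :=
    Real.tendsto_log_atTop.comp (tendsto_atTop_add_const_left _ 3 tendsto_id)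
  exact Real.tendsto_log_atTop.comp (tendsto_atTop_add_const_left _ 3 h1)

/-- the low frequencies -/
lemma BG_split {g : E 2 → ℂ} (hg : MemLp g 2) (j R : ℝ) (hR : j ≤ R) (x : E 2) :
    BG g R x = BG g j x + BG ((Metric.closedBall (0 : E 2) j)ᶜ.indicator g) R x := by
  have hs : Metric.closedBall (0 : E 2) j ⊆ Metric.closedBall 0 R :=
    Metric.closedBall_subset_closedBall hR
  have e1 : BG ((Metric.closedBall (0 : E 2) j)ᶜ.indicator g) R x =
      ∫ ξ in Metric.closedBall (0 : E 2) R \ Metric.closedBall 0 j, g ξ * ex x ξ := by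
    unfold BG
    have e2 : (fun ξ => (Metric.closedBall (0 : E 2) j)ᶜ.indicator g ξ * ex x ξ) =
        (Metric.closedBall (0 : E 2) j)ᶜ.indicator (fun ξ => g ξ * ex x ξ) := by
      funext ξ
      by_cases h : ξ ∈ (Metric.closedBall (0 : E 2) j)ᶜ
      · rw [indicator_of_mem h, indicator_of_mem h]
      · rw [indicator_of_notMem h, indicator_of_notMem h, zero_mul]
    rw [e2, setIntegral_indicator measurableSet_closedBall.compl]
    rfl
  rw [e1]
  unfold BG
  have h3 := setIntegral_union (μ := volume) (f := fun ξ => g ξ * ex x ξ)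
    (Set.disjoint_sdiff_right (s := Metric.closedBall (0 : E 2) j)
      (t := Metric.closedBall (0 : E 2) R))
    (measurableSet_closedBall.diff measurableSet_closedBall) (int_ex hg j x)
    ((int_ex hg R x).mono_measure (Measure.restrict_mono sdiff_subset le_rfl))
  rw [← h3, union_sdiff_cancel hs]

/-- the upper limit of the normalised disc integrals -/
noncomputable def LS (g : E 2 → ℂ) (x : E 2) : ℝ≥0∞ :=
  limsup (fun R : ℝ => ‖BG g R x‖ₑ / ENNReal.ofReal (LL R ^ 6)) atTop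

lemma LS_le {g : E 2 → ℂ} (hg : MemLp g 2) (j : ℝ) (x : E 2) :
    LS g x ≤ MG ((Metric.closedBall (0 : E 2) j)ᶜ.indicator g) x := by
  unfold LS
  have h1 : Tendsto (fun R : ℝ => ‖BG g j x‖ₑ / ENNReal.ofReal (LL R ^ 6)) atTop (𝓝 0) := by
    have h2 : Tendsto (fun R : ℝ => ENNReal.ofReal (LL R ^ 6)) atTop (𝓝 ⊤) :=
      ENNReal.tendsto_ofReal_atTop.comp ((tendsto_pow_atTop (by norm_num)).comp LL_tendsto)
    have h3 := ENNReal.Tendsto.const_div (a := ‖BG g j x‖ₑ) h2 (Or.inr enorm_ne_top)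
    rwa [ENNReal.div_top] at h3
  have h4 : ∀ᶠ R : ℝ in atTop, ‖BG g R x‖ₑ / ENNReal.ofReal (LL R ^ 6) ≤
      ‖BG g j x‖ₑ / ENNReal.ofReal (LL R ^ 6) +
        MG ((Metric.closedBall (0 : E 2) j)ᶜ.indicator g) x := by
    filter_upwards [eventually_ge_atTop j, eventually_gt_atTop 0] with R hR hR0
    rw [BG_split hg j R hR]
    refine (ENNReal.div_le_div_right (enorm_add_le _ _) _).trans ?_
    rw [ENNReal.add_div]
    gcongr
    exact le_iSup₂ (f := fun (R : ℝ) (_ : 0 < R) =>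
      ‖BG ((Metric.closedBall (0 : E 2) j)ᶜ.indicator g) R x‖ₑ / ENNReal.ofReal (LL R ^ 6)) R hR0
  refine (limsup_le_limsup h4).trans ?_
  have h5 : Tendsto (fun R : ℝ => ‖BG g j x‖ₑ / ENNReal.ofReal (LL R ^ 6) +
      MG ((Metric.closedBall (0 : E 2) j)ᶜ.indicator g) x) atTop
      (𝓝 (0 + MG ((Metric.closedBall (0 : E 2) j)ᶜ.indicator g) x)) :=
    h1.add tendsto_const_nhds
  rw [h5.limsup_eq, zero_add]

lemma tail {g : E 2 → ℂ} (hg : Measurable g) (hfin : ∫⁻ ξ, ‖g ξ‖ₑ ^ 2 ≠ ⊤) :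
    Tendsto (fun j : ℕ => ∫⁻ ξ, ‖(Metric.closedBall (0 : E 2) j)ᶜ.indicator g ξ‖ₑ ^ 2) atTop
      (𝓝 0) := by
  have h0 : (0 : ℝ≥0∞) = ∫⁻ _ : E 2, 0 := by simp
  rw [h0]
  refine tendsto_lintegral_of_dominated_convergence (fun ξ => ‖g ξ‖ₑ ^ 2) ?_ ?_ hfin ?_
  · intro j
    exact ((hg.indicator measurableSet_closedBall.compl).enorm.pow_const 2)
  · intro j
    refine Eventually.of_forall fun ξ => ?_
    by_cases h : ξ ∈ (Metric.closedBall (0 : E 2) (j : ℝ))ᶜ
    · simp only [indicator_of_mem h]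
      exact le_rfl
    · simp only [indicator_of_notMem h]
      simp
  · refine Eventually.of_forall fun ξ => ?_
    refine tendsto_const_nhds.congr' ?_
    obtain ⟨n, hn⟩ := exists_nat_ge ‖ξ‖
    filter_upwards [eventually_ge_atTop n] with j hj
    have h : ξ ∉ (Metric.closedBall (0 : E 2) (j : ℝ))ᶜ := by
      rw [mem_compl_iff, not_not, mem_closedBall_zero_iff]
      exact hn.trans (by exact_mod_cast hj)
    rw [indicator_of_notMem h]
    simp

lemma MG_meas {g : E 2 → ℂ} (hg : MemLp g 2) : Measurable (MG g) := by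
  unfold MG
  refine LowerSemicontinuous.measurable ?_
  refine lowerSemicontinuous_iSup fun R => lowerSemicontinuous_iSup fun hR => ?_
  have h1 : ENNReal.ofReal (LL R ^ 6) ≠ 0 := by
    rw [Ne, ENNReal.ofReal_eq_zero, not_le]
    exact pow_pos (by linarith [LL_one hR.le]) 6
  refine Continuous.lowerSemicontinuous ?_
  exact (ENNReal.continuous_div_const _ h1).comp (BG_cont hg R).enorm

lemma ae_of_balls {p : E 2 → Prop}
    (h : ∀ x0 : E 2, ∀ᵐ x ∂volume.restrict (Metric.closedBall x0 1), p x) : ∀ᵐ x, p x := by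
  have hcov : ⋃ n : ℕ, Metric.closedBall (TopologicalSpace.denseSeq (E 2) n) 1 = univ := by
    refine eq_univ_of_forall fun x => ?_
    obtain ⟨n, hn⟩ := (TopologicalSpace.denseRange_denseSeq (E 2)).exists_dist_lt x one_pos
    exact mem_iUnion.2 ⟨n, Metric.mem_closedBall.2 hn.le⟩
  rw [← Measure.restrict_univ (μ := (volume : Measure (E 2))), ← hcov, ae_restrict_iUnion_iff]
  exact fun n => h _

end GAE_

open GAE_ in
/-- growth almost everywhere, all `g ∈ L²` -/
theorem p_GAE (h : T_GRW) : T_GAE := by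
  intro g hg hfin
  obtain ⟨C, hC⟩ := h
  have hg2 : MemLp g 2 := by
    refine ⟨hg.aestronglyMeasurable, ?_⟩
    rw [lt_top_iff_ne_top]
    intro h
    apply hfin
    rw [← LAC_.lp_sq g, h]
    simp
  set gj : ℕ → E 2 → ℂ := fun j => (Metric.closedBall (0 : E 2) (j : ℝ))ᶜ.indicator g with hgj
  have hball : ∀ x0 : E 2, ∀ᵐ x ∂volume.restrict (Metric.closedBall x0 1), LS g x = 0 := by
    intro x0
    have h1 : ∀ j : ℕ, ∫⁻ x in Metric.closedBall x0 1, (⨅ i, MG (gj i) x ^ 2) ≤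
        C * ∫⁻ ξ, ‖gj j ξ‖ₑ ^ 2 := by
      intro j
      refine le_trans ?_ (hC _ x0 (hg.indicator measurableSet_closedBall.compl))
      exact lintegral_mono fun x => iInf_le (fun i => MG (gj i) x ^ 2) j
    have h2 := ENNReal.Tendsto.const_mul (a := (C : ℝ≥0∞)) (tail hg hfin)
      (Or.inr ENNReal.coe_ne_top)
    rw [mul_zero] at h2
    have h3 : ∫⁻ x in Metric.closedBall x0 1, (⨅ i, MG (gj i) x ^ 2) = 0 :=
      le_antisymm (ge_of_tendsto' h2 h1) bot_le
    have h4 : Measurable fun x => ⨅ i, MG (gj i) x ^ 2 :=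
      Measurable.iInf fun i =>
        (MG_meas (hg2.indicator measurableSet_closedBall.compl)).pow_const 2
    rw [lintegral_eq_zero_iff h4] at h3
    filter_upwards [h3] with x hx
    have h5 : LS g x ^ 2 ≤ ⨅ i, MG (gj i) x ^ 2 :=
      le_iInf fun i => pow_le_pow_left' (LS_le hg2 i x) 2
    have hx' : (⨅ i, MG (gj i) x ^ 2) = 0 := hx
    rw [hx'] at h5
    exact pow_eq_zero_iff (two_ne_zero) |>.1 (le_antisymm h5 bot_le)
  filter_upwards [ae_of_balls hball] with x hx
  have h6 : Tendsto (fun R : ℝ => ‖BG g R x‖ₑ / ENNReal.ofReal (LL R ^ 6)) atTop (𝓝 0) :=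
    tendsto_of_le_liminf_of_limsup_le bot_le hx.le
  have h7 := (ENNReal.tendsto_toReal ENNReal.zero_ne_top).comp h6
  rw [ENNReal.toReal_zero] at h7
  refine h7.congr' ?_
  filter_upwards [eventually_ge_atTop 0] with R hR
  have h8 : 0 ≤ LL R ^ 6 := pow_nonneg (by linarith [GRW_.LL_one hR]) 6
  rw [Function.comp_apply, ENNReal.toReal_div, ENNReal.toReal_ofReal h8, toReal_enorm]

end Pool.Agent.GRH
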