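import Pool.Agent.GRH.P_LAC

set_option autoImplicit false

/-! GRW: the maximal inequality with the weight `L(R)^6`, all `g ∈ L²` -/

namespace Pool.Agent.GRH

open MeasureTheory FourierTransform Set Filter Topology
open scoped ENNReal NNReal
open Pool.Agent.MBS (E ex S Sstar)

namespace GRW_

open LAC_ (ex_norm ex_cont int_ex lp_sq)

/-! ### numbers -/

lemma exp_one_le : Real.exp 1 ≤ 3 := by
  have := Real.exp_one_lt_d9
  linarith

lemma two_le_exp : (2 : ℝ) ≤ Real.exp 1 := by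
  have := Real.exp_one_gt_d9
  linarith

lemma log3 {d : ℝ} (hd : 0 ≤ d) : 1 ≤ Real.log (3 + d) := by
  rw [Real.le_log_iff_exp_le (by linarith)]
  have := exp_one_le
  linarith

lemma LL_one {R : ℝ} (hR : 0 ≤ R) : 1 ≤ LL R := by
  unfold LL
  exact log3 (by linarith [log3 hR])

lemma LL_mono {r R : ℝ} (h0 : 0 ≤ r) (h : r ≤ R) : LL r ≤ LL R := by
  unfold LL
  have h1 := log3 h0
  refine Real.log_le_log (by linarith) ?_
  have h2 : Real.log (3 + r) ≤ Real.log (3 + R) := Real.log_le_log (by linarith) (by linarith)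
  linarith

lemma NN_pos (k : ℕ) : 0 < NN k := Real.exp_pos _

lemma one_le_two_pow (k : ℕ) : (1 : ℝ) ≤ 2 ^ k := one_le_pow₀ (by norm_num)

lemma NN_two (k : ℕ) : 2 * NN k ≤ NN (k + 1) := by
  unfold NN
  have h1 : Real.exp (2 ^ (k + 1)) = Real.exp (2 ^ k) ^ 2 := by
    rw [← Real.exp_nat_mul]
    congr 1
    push_cast
    ring
  rw [h1]
  set a := Real.exp (2 ^ k) with ha
  have h2 : 2 ≤ a := two_le_exp.trans (Real.exp_le_exp.2 (one_le_two_pow k))
  have h3 : a + 1 ≤ a ^ 2 := by nlinarith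
  calc 2 * Real.exp a ≤ Real.exp 1 * Real.exp a :=
        mul_le_mul_of_nonneg_right two_le_exp (Real.exp_pos a).le
    _ = Real.exp (a + 1) := by rw [Real.exp_add]; ring
    _ ≤ _ := Real.exp_le_exp.2 h3

lemma NN_lt (k : ℕ) : NN k < NN (k + 1) := by
  have h1 := NN_two k
  have h2 := NN_pos k
  linarith

lemma NN_mono : Monotone NN := monotone_nat_of_le_succ fun k => (NN_lt k).le

lemma le_NN (k : ℕ) : (2 : ℝ) ^ k ≤ NN k := by
  induction k with
  | zero =>
    unfold NN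
    rw [pow_zero, ← Real.exp_zero]
    exact Real.exp_le_exp.2 (Real.exp_pos _).le
  | succ k ih =>
    have := NN_two k
    rw [pow_succ]
    linarith

lemma LL_lo (k : ℕ) : (2 : ℝ) ^ k ≤ LL (NN k) := by
  have h1 : Real.exp (2 ^ k) ≤ Real.log (3 + NN k) := by
    rw [Real.le_log_iff_exp_le (by linarith [NN_pos k])]
    change NN k ≤ _
    linarith
  unfold LL
  rw [Real.le_log_iff_exp_le (by linarith [log3 (NN_pos k).le])]
  linarith

lemma LL_hi (k : ℕ) : LL (NN k) ≤ 2 ^ k + 2 := by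
  set a := Real.exp (2 ^ k) with ha
  have h2 : 2 ≤ a := two_le_exp.trans (Real.exp_le_exp.2 (one_le_two_pow k))
  have e2 : (6 : ℝ) ≤ Real.exp 2 := by
    have h := Real.exp_one_gt_d9
    rw [show (2 : ℝ) = 1 + 1 by norm_num, Real.exp_add]
    nlinarith
  have h1 : Real.log (3 + NN k) ≤ a + 2 := by
    rw [Real.log_le_iff_le_exp (by linarith [NN_pos k]), Real.exp_add]
    have h3 : 1 ≤ Real.exp a := by
      rw [← Real.exp_zero]
      exact Real.exp_le_exp.2 (by linarith)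
    change 3 + Real.exp a ≤ _
    nlinarith
  unfold LL
  rw [Real.log_le_iff_le_exp (by linarith [log3 (NN_pos k).le]), Real.exp_add, ← ha]
  nlinarith

/-- lower bound of `L` in the block `k` -/
noncomputable def VV : ℕ → ℝ
  | 0 => 1
  | (k + 1) => 2 ^ k

lemma VV_pos (k : ℕ) : 0 < VV k := by
  cases k with
  | zero => exact one_pos
  | succ k => exact pow_pos (by norm_num) k

lemma LL_VV (k : ℕ) : LL (NN k) ≤ 4 * VV k := by
  have h := LL_hi k
  cases k with
  | zero =>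
    change LL (NN 0) ≤ 4 * 1
    norm_num at h ⊢
    linarith
  | succ k =>
    change LL (NN (k + 1)) ≤ 4 * 2 ^ k
    have := one_le_two_pow k
    rw [pow_succ] at h
    linarith

/-! ### blocks -/

/-- the block `k` of the frequencies -/
def II : ℕ → Set (E 2)
  | 0 => Metric.closedBall 0 (NN 0)
  | (k + 1) => Metric.closedBall 0 (NN (k + 1)) \ Metric.closedBall 0 (NN k)

lemma II_meas (k : ℕ) : MeasurableSet (II k) := by
  cases k with
  | zero => exact measurableSet_closedBall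
  | succ k => exact measurableSet_closedBall.diff measurableSet_closedBall

lemma II_sub (k : ℕ) : II k ⊆ Metric.closedBall 0 (NN k) := by
  cases k with
  | zero => exact subset_rfl
  | succ k => exact sdiff_subset

lemma II_disj : Pairwise (Function.onFun Disjoint II) := by
  have key : ∀ i j : ℕ, i < j → Disjoint (II i) (II j) := by
    intro i j hij
    obtain ⟨d, rfl⟩ := Nat.exists_eq_add_of_lt hij
    refine Disjoint.mono (II_sub i) subset_rfl ?_
    refine disjoint_left.2 fun ξ h1 h2 => h2.2 ?_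
    exact Metric.closedBall_subset_closedBall (NN_mono (by omega)) h1
  intro i j hij
  rcases lt_or_gt_of_ne hij with h | h
  · exact key i j h
  · exact (key j i h).symm

/-- the unweighted maximal function -/
noncomputable def MX (g : E 2 → ℂ) (x : E 2) : ℝ≥0∞ := ⨆ (R : ℝ) (_ : 0 < R), ‖BG g R x‖ₑ

lemma BG_cont {g : E 2 → ℂ} (hg : MemLp g 2) (R : ℝ) : Continuous (BG g R) := by
  have : IsFiniteMeasure (volume.restrict (Metric.closedBall (0 : E 2) R)) :=
    ⟨by rw [Measure.restrict_apply_univ]; exact (isCompact_closedBall _ _).measure_lt_top⟩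
  have hi : Integrable g (volume.restrict (Metric.closedBall (0 : E 2) R)) :=
    (hg.restrict _).integrable (by norm_num)
  unfold BG
  refine continuous_of_dominated (bound := fun ξ => ‖g ξ‖) ?_ ?_ hi.norm ?_
  · intro x
    exact (int_ex hg R x).1
  · intro x
    refine Eventually.of_forall fun ξ => ?_
    rw [norm_mul, ex_norm, mul_one]
  · refine Eventually.of_forall fun ξ => ?_
    exact continuous_const.mul (ex_cont.comp (Continuous.prodMk continuous_id continuous_const))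

lemma MX_meas {g : E 2 → ℂ} (hg : MemLp g 2) : Measurable (MX g) := by
  unfold MX
  refine LowerSemicontinuous.measurable ?_
  refine lowerSemicontinuous_iSup fun R => lowerSemicontinuous_iSup fun _ => ?_
  exact (BG_cont hg R).enorm.lowerSemicontinuous

lemma BG_zero {g : E 2 → ℂ} {R : ℝ} (hR : R ≤ NN 0) (x : E 2) :
    BG g R x = BG ((II 0).indicator g) R x := by
  unfold BG
  refine setIntegral_congr_fun measurableSet_closedBall fun ξ hξ => ?_
  have h : ξ ∈ II 0 := Metric.closedBall_subset_closedBall hR hξ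
  simp only [indicator_of_mem h]

lemma BG_succ {g : E 2 → ℂ} (hg : MemLp g 2) {k : ℕ} {R : ℝ} (h1 : NN k ≤ R)
    (h2 : R ≤ NN (k + 1)) (x : E 2) :
    BG g R x = BG g (NN k) x + BG ((II (k + 1)).indicator g) R x := by
  have hs : Metric.closedBall (0 : E 2) (NN k) ⊆ Metric.closedBall 0 R :=
    Metric.closedBall_subset_closedBall h1
  have e1 : BG ((II (k + 1)).indicator g) R x =
      ∫ ξ in Metric.closedBall (0 : E 2) R \ Metric.closedBall 0 (NN k), g ξ * ex x ξ := by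
    unfold BG
    have e2 : (fun ξ => (II (k + 1)).indicator g ξ * ex x ξ) =
        (II (k + 1)).indicator (fun ξ => g ξ * ex x ξ) := by
      funext ξ
      by_cases h : ξ ∈ II (k + 1)
      · rw [indicator_of_mem h, indicator_of_mem h]
      · rw [indicator_of_notMem h, indicator_of_notMem h, zero_mul]
    rw [e2, setIntegral_indicator (II_meas _)]
    congr 2
    ext ξ
    simp only [II, mem_inter_iff, Set.mem_sdiff]
    constructor
    · rintro ⟨a, -, b⟩
      exact ⟨a, b⟩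
    · rintro ⟨a, b⟩
      exact ⟨a, Metric.closedBall_subset_closedBall h2 a, b⟩
  rw [e1]
  unfold BG
  have h3 := setIntegral_union (μ := volume) (f := fun ξ => g ξ * ex x ξ)
    (Set.disjoint_sdiff_right (s := Metric.closedBall (0 : E 2) (NN k))
      (t := Metric.closedBall (0 : E 2) R))
    (measurableSet_closedBall.diff measurableSet_closedBall) (int_ex hg (NN k) x)
    ((int_ex hg R x).mono_measure (Measure.restrict_mono sdiff_subset le_rfl))
  rw [← h3, union_sdiff_cancel hs]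

lemma sq_add (a b : ℝ≥0∞) : (a + b) ^ 2 ≤ 4 * (a ^ 2 + b ^ 2) := by
  rcases le_total a b with h | h
  · calc (a + b) ^ 2 ≤ (b + b) ^ 2 := by gcongr
      _ = 4 * b ^ 2 := by ring
      _ ≤ _ := by gcongr; exact le_add_self
  · calc (a + b) ^ 2 ≤ (a + a) ^ 2 := by gcongr
      _ = 4 * a ^ 2 := by ring
      _ ≤ _ := by gcongr; exact le_self_add

lemma iSup_sq (a : ℕ → ℝ≥0∞) : (⨆ k, a k) ^ 2 ≤ ∑' k, a k ^ 2 := by
  have hmono : Monotone (fun y : ℝ≥0∞ => y ^ 2) := fun a b hab => pow_le_pow_left' hab 2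
  have h := hmono.map_iSup_of_continuousAt (f := fun y : ℝ≥0∞ => y ^ 2) (g := a)
    (ENNReal.continuous_pow 2).continuousAt (by simp)
  rw [h]
  exact iSup_le fun k => ENNReal.le_tsum k

/-- pointwise bound -/
lemma MG_le {g : E 2 → ℂ} (hg : MemLp g 2) (x : E 2) :
    MG g x ≤ (⨆ k, ‖BG g (NN k) x‖ₑ) +
      ⨆ k, MX ((II k).indicator g) x / ENNReal.ofReal (VV k ^ 6) := by
  unfold MG
  refine iSup₂_le fun R hR => ?_
  by_cases h0 : R ≤ NN 0
  · rw [BG_zero h0]
    refine le_add_left ?_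
    refine le_trans ?_ (le_iSup (fun k => MX ((II k).indicator g) x /
      ENNReal.ofReal (VV k ^ 6)) 0)
    refine ENNReal.div_le_div ?_ (ENNReal.ofReal_le_ofReal ?_)
    · exact le_iSup₂ (f := fun (R : ℝ) (_ : 0 < R) => ‖BG ((II 0).indicator g) R x‖ₑ) R hR
    · change (1 : ℝ) ^ 6 ≤ _
      exact pow_le_pow_left₀ zero_le_one (LL_one hR.le) 6
  · push Not at h0
    have hex : ∃ k, R ≤ NN k := by
      obtain ⟨k, hk⟩ := pow_unbounded_of_one_lt R (by norm_num : (1 : ℝ) < 2)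
      exact ⟨k, hk.le.trans (le_NN k)⟩
    classical
    obtain ⟨k, hk1, hk2⟩ : ∃ k, NN k < R ∧ R ≤ NN (k + 1) := by
      have h1 := Nat.find_spec hex
      have h2 : Nat.find hex ≠ 0 := by
        intro h3
        rw [h3] at h1
        exact absurd h1 (not_le.2 h0)
      obtain ⟨k, hk⟩ := Nat.exists_eq_succ_of_ne_zero h2
      refine ⟨k, ?_, ?_⟩
      · have h4 := Nat.find_min hex (m := k) (by omega)
        exact not_le.1 h4
      · rw [hk] at h1
        exact h1
    have hLR : (2 : ℝ) ^ k ≤ LL R := (LL_lo k).trans (LL_mono (NN_pos k).le hk1.le)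
    rw [BG_succ hg hk1.le hk2]
    calc ‖BG g (NN k) x + BG ((II (k + 1)).indicator g) R x‖ₑ / ENNReal.ofReal (LL R ^ 6)
        ≤ (‖BG g (NN k) x‖ₑ + ‖BG ((II (k + 1)).indicator g) R x‖ₑ) /
            ENNReal.ofReal (LL R ^ 6) := ENNReal.div_le_div_right (enorm_add_le _ _) _
      _ = ‖BG g (NN k) x‖ₑ / ENNReal.ofReal (LL R ^ 6) +
            ‖BG ((II (k + 1)).indicator g) R x‖ₑ / ENNReal.ofReal (LL R ^ 6) :=
          ENNReal.add_div
      _ ≤ _ := by
        refine add_le_add ?_ ?_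
        · refine le_trans ?_ (le_iSup (fun k => ‖BG g (NN k) x‖ₑ) k)
          refine ENNReal.div_le_of_le_mul ?_
          refine le_mul_of_one_le_right' ?_
          rw [← ENNReal.ofReal_one]
          exact ENNReal.ofReal_le_ofReal (one_le_pow₀ (LL_one hR.le))
        · refine le_trans ?_ (le_iSup (fun k => MX ((II k).indicator g) x /
            ENNReal.ofReal (VV k ^ 6)) (k + 1))
          refine ENNReal.div_le_div ?_ (ENNReal.ofReal_le_ofReal ?_)
          · exact le_iSup₂ (f := fun (R : ℝ) (_ : 0 < R) =>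
              ‖BG ((II (k + 1)).indicator g) R x‖ₑ) R hR
          · exact pow_le_pow_left₀ (by positivity) hLR 6

/-- one block -/
lemma block {C : ℝ≥0} (hC : ∀ (g : E 2 → ℂ) (x0 : E 2), Measurable g →
    ∫⁻ x in Metric.closedBall x0 1, MX g x ^ 2 ≤
      C * ∫⁻ ξ, ‖g ξ‖ₑ ^ 2 * ENNReal.ofReal (LL ‖ξ‖ ^ 12))
    {g : E 2 → ℂ} (hg : Measurable g) (hg2 : MemLp g 2) (x0 : E 2) (k : ℕ) :
    ∫⁻ x in Metric.closedBall x0 1,
        (MX ((II k).indicator g) x / ENNReal.ofReal (VV k ^ 6)) ^ 2 ≤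
      C * ENNReal.ofReal (4 ^ 12) * ∫⁻ ξ in II k, ‖g ξ‖ₑ ^ 2 := by
  have hV : 0 < VV k ^ 6 := pow_pos (VV_pos k) 6
  have h1 : ∀ x, (MX ((II k).indicator g) x / ENNReal.ofReal (VV k ^ 6)) ^ 2 =
      ENNReal.ofReal ((VV k ^ 12)⁻¹) * MX ((II k).indicator g) x ^ 2 := by
    intro x
    rw [div_eq_mul_inv, mul_pow, mul_comm, ← ENNReal.ofReal_inv_of_pos hV,
      ← ENNReal.ofReal_pow (by positivity)]
    congr 2
    rw [← inv_pow, ← inv_pow, ← pow_mul]
  simp_rw [h1]
  rw [lintegral_const_mul _ ((MX_meas (hg2.indicator (II_meas k))).pow_const 2)]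
  refine (mul_le_mul' le_rfl (hC _ x0 (hg.indicator (II_meas k)))).trans ?_
  have h2 : ∫⁻ ξ, ‖(II k).indicator g ξ‖ₑ ^ 2 * ENNReal.ofReal (LL ‖ξ‖ ^ 12) ≤
      ENNReal.ofReal (4 ^ 12 * VV k ^ 12) * ∫⁻ ξ in II k, ‖g ξ‖ₑ ^ 2 := by
    rw [← lintegral_const_mul _ (hg.enorm.pow_const 2), ← lintegral_indicator (II_meas k)]
    refine lintegral_mono fun ξ => ?_
    by_cases h : ξ ∈ II k
    · rw [indicator_of_mem h, indicator_of_mem h, mul_comm]
      refine mul_le_mul' (ENNReal.ofReal_le_ofReal ?_) le_rfl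
      rw [← mul_pow]
      refine pow_le_pow_left₀ (by linarith [LL_one (norm_nonneg ξ)]) ?_ 12
      refine (LL_mono (norm_nonneg ξ) ?_).trans (LL_VV k)
      exact mem_closedBall_zero_iff.1 (II_sub k h)
    · rw [indicator_of_notMem h, indicator_of_notMem h]
      simp
  calc ENNReal.ofReal ((VV k ^ 12)⁻¹) *
        (C * ∫⁻ ξ, ‖(II k).indicator g ξ‖ₑ ^ 2 * ENNReal.ofReal (LL ‖ξ‖ ^ 12))
      ≤ ENNReal.ofReal ((VV k ^ 12)⁻¹) *
        (C * (ENNReal.ofReal (4 ^ 12 * VV k ^ 12) * ∫⁻ ξ in II k, ‖g ξ‖ₑ ^ 2)) := by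
        gcongr
    _ = C * (ENNReal.ofReal ((VV k ^ 12)⁻¹) * ENNReal.ofReal (4 ^ 12 * VV k ^ 12)) *
        ∫⁻ ξ in II k, ‖g ξ‖ₑ ^ 2 := by ring
    _ = _ := by
        have h3 := (pow_pos (VV_pos k) 12).ne'
        have h4 : (VV k ^ 12)⁻¹ * (4 ^ 12 * VV k ^ 12) = 4 ^ 12 := by
          rw [mul_comm, mul_assoc, mul_inv_cancel₀ h3, mul_one]
        rw [← ENNReal.ofReal_mul (inv_nonneg.2 (pow_pos (VV_pos k) 12).le), h4]

end GRW_

open GRW_ in
/-- the maximal inequality for all `g ∈ L²` -/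
theorem p_GRW (h1 : T_LLL) (h2 : T_LAC) : T_GRW := by
  obtain ⟨C1, hC1⟩ := h1
  obtain ⟨C2, hC2⟩ := h2
  refine ⟨4 * (C2 + C1 * Real.toNNReal (4 ^ 12)) + 1, fun g x0 hg => ?_⟩
  by_cases hfin : ∫⁻ ξ, ‖g ξ‖ₑ ^ 2 = ⊤
  · rw [hfin, ENNReal.mul_top (by simp)]
    exact le_top
  have hg2 : MemLp g 2 := by
    refine ⟨hg.aestronglyMeasurable, ?_⟩
    rw [lt_top_iff_ne_top]
    intro h
    apply hfin
    rw [← LAC_.lp_sq g, h]
    simp
  have hA : Measurable fun x => (⨆ k, ‖BG g (NN k) x‖ₑ) ^ 2 :=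
    (Measurable.iSup fun k => (BG_cont hg2 (NN k)).measurable.enorm).pow_const 2
  calc ∫⁻ x in Metric.closedBall x0 1, MG g x ^ 2
      ≤ ∫⁻ x in Metric.closedBall x0 1, 4 * ((⨆ k, ‖BG g (NN k) x‖ₑ) ^ 2 +
          ∑' k, (MX ((II k).indicator g) x / ENNReal.ofReal (VV k ^ 6)) ^ 2) := by
        refine lintegral_mono fun x => ?_
        refine (pow_le_pow_left' (MG_le hg2 x) 2).trans ((sq_add _ _).trans ?_)
        gcongr
        exact iSup_sq _
    _ = 4 * ((∫⁻ x in Metric.closedBall x0 1, (⨆ k, ‖BG g (NN k) x‖ₑ) ^ 2) +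
          ∑' k, ∫⁻ x in Metric.closedBall x0 1,
            (MX ((II k).indicator g) x / ENNReal.ofReal (VV k ^ 6)) ^ 2) := by
        rw [lintegral_const_mul' _ _ (by norm_num), lintegral_add_left hA, lintegral_tsum]
        intro k
        exact (((MX_meas (hg2.indicator (II_meas k))).div_const _).pow_const 2).aemeasurable
    _ ≤ 4 * ((C2 * ∫⁻ ξ, ‖g ξ‖ₑ ^ 2) +
          ∑' k, C1 * ENNReal.ofReal (4 ^ 12) * ∫⁻ ξ in II k, ‖g ξ‖ₑ ^ 2) := by
        refine mul_le_mul' le_rfl (add_le_add ?_ ?_)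
        · refine (lintegral_mono' Measure.restrict_le_self le_rfl).trans ?_
          exact hC2 NN g NN_pos NN_two hg
        · exact ENNReal.tsum_le_tsum fun k => block hC1 hg hg2 x0 k
    _ ≤ 4 * ((C2 * ∫⁻ ξ, ‖g ξ‖ₑ ^ 2) +
          C1 * ENNReal.ofReal (4 ^ 12) * ∫⁻ ξ, ‖g ξ‖ₑ ^ 2) := by
        rw [ENNReal.tsum_mul_left]
        gcongr
        rw [← lintegral_iUnion II_meas II_disj]
        exact lintegral_mono' Measure.restrict_le_self le_rfl
    _ = (4 * (C2 + C1 * Real.toNNReal (4 ^ 12)) : ℝ≥0) * ∫⁻ ξ, ‖g ξ‖ₑ ^ 2 := by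
        have h5 : ENNReal.ofReal (4 ^ 12) = ((Real.toNNReal (4 ^ 12) : ℝ≥0) : ℝ≥0∞) := rfl
        rw [h5]
        push_cast
        ring
    _ ≤ _ := by
        gcongr
        simp

end Pool.Agent.GRH
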