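import Pool.Agent.GRH.Targets
import Pool.Agent.H25.Plancherel

set_option autoImplicit false

/-! LAC: lacunary radii, all `g ∈ L²` -/

namespace Pool.Agent.GRH

open MeasureTheory FourierTransform Set Filter Topology
open scoped ENNReal NNReal SchwartzMap ContDiff
open Pool.Agent.MBS (E ex S Sstar)

namespace LAC_

lemma ex_norm {n : ℕ} (x ξ : E n) : ‖ex x ξ‖ = 1 := by
  unfold ex
  rw [show (2 * Real.pi * Complex.I * ((inner ℝ x ξ : ℝ) : ℂ)) =
    ((2 * Real.pi * inner ℝ x ξ : ℝ) : ℂ) * Complex.I by push_cast; ring]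
  exact Complex.norm_exp_ofReal_mul_I _

lemma ex_cont {n : ℕ} : Continuous fun p : E n × E n => ex p.1 p.2 := by
  unfold ex
  fun_prop

lemma lp_sq (g : E 2 → ℂ) : eLpNorm g 2 volume ^ 2 = ∫⁻ ξ, ‖g ξ‖ₑ ^ 2 := by
  rw [eLpNorm_eq_lintegral_rpow_enorm_toReal (by norm_num) (by norm_num)]
  simp only [ENNReal.toReal_ofNat, ENNReal.rpow_ofNat, one_div]
  rw [← ENNReal.rpow_natCast, ← ENNReal.rpow_mul]
  norm_num

lemma int_ex {g : E 2 → ℂ} (hg : MemLp g 2) (R : ℝ) (x : E 2) :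
    Integrable (fun ξ => g ξ * ex x ξ) (volume.restrict (Metric.closedBall (0 : E 2) R)) := by
  have h1 : MemLp g 2 (volume.restrict (Metric.closedBall (0 : E 2) R)) := hg.restrict _
  have : IsFiniteMeasure (volume.restrict (Metric.closedBall (0 : E 2) R)) :=
    ⟨by rw [Measure.restrict_apply_univ]; exact (isCompact_closedBall _ _).measure_lt_top⟩
  have h2 : Integrable g (volume.restrict (Metric.closedBall (0 : E 2) R)) :=
    h1.integrable (by norm_num)
  refine h2.mul_bdd (c := 1) ?_ ?_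
  · exact (ex_cont.comp (Continuous.prodMk_right x)).aestronglyMeasurable
  · exact Filter.Eventually.of_forall fun ξ => (ex_norm x ξ).le

lemma BG_sub {g g' : E 2 → ℂ} (hg : MemLp g 2) (hg' : MemLp g' 2) (R : ℝ)
    (x : E 2) : ‖BG g R x - BG g' R x‖ₑ ≤
      eLpNorm (g - g') 2 volume * volume (Metric.closedBall (0 : E 2) R) ^ (1 / 2 : ℝ) := by
  unfold BG
  rw [← integral_sub (int_ex hg R x) (int_ex hg' R x)]
  have hm : AEStronglyMeasurable (g - g') (volume.restrict (Metric.closedBall (0 : E 2) R)) :=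
    ((hg.sub hg').restrict _).1
  calc ‖∫ ξ in Metric.closedBall (0 : E 2) R, (g ξ * ex x ξ - g' ξ * ex x ξ)‖ₑ
      ≤ ∫⁻ ξ in Metric.closedBall (0 : E 2) R, ‖g ξ * ex x ξ - g' ξ * ex x ξ‖ₑ :=
        enorm_integral_le_lintegral_enorm _
    _ = ∫⁻ ξ in Metric.closedBall (0 : E 2) R, ‖(g - g') ξ‖ₑ := by
        refine lintegral_congr fun ξ => ?_
        rw [← sub_mul, enorm_mul]
        have : ‖ex x ξ‖ₑ = 1 := by rw [← ofReal_norm, ex_norm, ENNReal.ofReal_one]
        rw [this, mul_one, Pi.sub_apply]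
    _ = eLpNorm (g - g') 1 (volume.restrict (Metric.closedBall (0 : E 2) R)) :=
        eLpNorm_one_eq_lintegral_enorm.symm
    _ ≤ eLpNorm (g - g') 2 (volume.restrict (Metric.closedBall (0 : E 2) R)) *
        (volume.restrict (Metric.closedBall (0 : E 2) R)) univ ^
          (1 / (1 : ℝ≥0∞).toReal - 1 / (2 : ℝ≥0∞).toReal) :=
        eLpNorm_le_eLpNorm_mul_rpow_measure_univ (by norm_num) hm
    _ ≤ _ := by
        rw [Measure.restrict_apply_univ]
        refine mul_le_mul' ?_ (le_of_eq ?_)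
        · exact eLpNorm_mono_measure _ Measure.restrict_le_self
        · norm_num

lemma BG_meas {g : E 2 → ℂ} (hg : Measurable g) (R : ℝ) : Measurable (BG g R) := by
  unfold BG
  have h1 : Measurable (Function.uncurry fun x ξ : E 2 => g ξ * ex x ξ) :=
    (hg.comp measurable_snd).mul ex_cont.measurable
  exact (StronglyMeasurable.integral_prod_right
    (ν := volume.restrict (Metric.closedBall (0 : E 2) R)) h1.stronglyMeasurable).measurable

end LAC_

open LAC_ in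
theorem p_LAC (h : T_SEP) : T_LAC := by
  obtain ⟨C0, hC0⟩ := h
  set C : ℝ≥0 := C0 * Real.toNNReal (Real.log (3 + Real.log (1 / 2 : ℝ)⁻¹) ^ 12) with hCdef
  have hC : ∀ (N : ℕ → ℝ) (f : E 2 → ℂ), (∀ k, 0 < N k) → (∀ k, 2 * N k ≤ N (k + 1)) →
      Measurable f → Integrable f → MemLp f 2 →
      ∫⁻ x, (⨆ k, ‖S f (N k) x‖ₑ) ^ 2 ≤ C * ∫⁻ x, ‖f x‖ₑ ^ 2 := by
    intro N f hN hN2 hf1 hf2 hf3
    have hmono : ∀ i d, N i ≤ N (i + d) := by
      intro i d
      induction d with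
      | zero => exact le_rfl
      | succ d ih =>
        have h1 := hN2 (i + d)
        have h2 := hN (i + d)
        rw [← add_assoc]
        linarith
    have h1 := hC0 (1 / 2) (range N) f (by norm_num) le_rfl (by
      rintro _ ⟨k, rfl⟩
      exact hN k) (by
      rintro _ ⟨i, rfl⟩ _ ⟨j, rfl⟩ hij
      have h3 : i < j := by
        by_contra h4
        obtain ⟨d, rfl⟩ := Nat.exists_eq_add_of_le (not_lt.1 h4)
        exact absurd hij (not_lt.2 (hmono j d))
      obtain ⟨d, rfl⟩ := Nat.exists_eq_add_of_lt h3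
      have h5 := hN2 i
      have h6 := hmono (i + 1) d
      rw [show i + d + 1 = i + 1 + d by ring]
      linarith) hf1 hf2 hf3
    rw [hCdef, ENNReal.coe_mul]
    refine le_trans (le_of_eq ?_) h1
    simp only [iSup_range]
  refine ⟨C + 1, fun N g hN hN2 hg => ?_⟩
  by_cases hfin : ∫⁻ ξ, ‖g ξ‖ₑ ^ 2 = ⊤
  · rw [hfin, ENNReal.mul_top (by simp)]
    exact le_top
  have hgM : MemLp g 2 := by
    refine ⟨hg.aestronglyMeasurable, ?_⟩
    rw [lt_top_iff_ne_top]
    intro h1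
    apply hfin
    rw [← lp_sq g, h1]
    simp
  have hex := fun n : ℕ => hgM.exist_eLpNorm_sub_le (by norm_num) (by norm_num)
    (ε := 1 / ((n : ℝ) + 1)) (by positivity)
  choose gn h1 h2 h3 using hex
  have hgn : ∀ n, MemLp (gn n) 2 := fun n =>
    (h2 n).continuous.memLp_of_hasCompactSupport (h1 n)
  let fn : ℕ → 𝓢(E 2, ℂ) := fun n => 𝓕⁻ ((h1 n).toSchwartzMap (h2 n))
  have hF : ∀ n, 𝓕 (fn n : E 2 → ℂ) = gn n := by
    intro n
    rw [← SchwartzMap.fourier_coe]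
    show ((𝓕 (𝓕⁻ ((h1 n).toSchwartzMap (h2 n))) : 𝓢(E 2, ℂ)) : E 2 → ℂ) = gn n
    rw [FourierTransform.fourier_fourierInv_eq]
    rfl
  have hfi : ∀ n, Integrable (fn n : E 2 → ℂ) := fun n => (fn n).integrable
  have hS : ∀ n R x, S (fn n) R x = BG (gn n) R x := by
    intro n R x
    unfold MBS.S BG
    rw [hF]
  have hlim : ∀ R x, Tendsto (fun n => BG (gn n) R x) atTop (𝓝 (BG g R x)) := by
    intro R x
    rw [tendsto_iff_edist_tendsto_0]
    have hV : volume (Metric.closedBall (0 : E 2) R) ^ (1 / 2 : ℝ) ≠ ⊤ :=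
      ENNReal.rpow_ne_top_of_nonneg (by norm_num) (isCompact_closedBall _ _).measure_lt_top.ne
    have hz : Tendsto (fun n : ℕ => ENNReal.ofReal (1 / ((n : ℝ) + 1)) *
        volume (Metric.closedBall (0 : E 2) R) ^ (1 / 2 : ℝ)) atTop (𝓝 0) := by
      have h4 : Tendsto (fun n : ℕ => ENNReal.ofReal (1 / ((n : ℝ) + 1))) atTop (𝓝 0) := by
        rw [← ENNReal.ofReal_zero]
        exact ENNReal.tendsto_ofReal tendsto_one_div_add_atTop_nhds_zero_nat
      simpa using ENNReal.Tendsto.mul_const h4 (Or.inr hV)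
    refine tendsto_of_tendsto_of_tendsto_of_le_of_le tendsto_const_nhds hz (fun n => bot_le)
      (fun n => ?_)
    show edist (BG (gn n) R x) (BG g R x) ≤ _
    rw [edist_comm, edist_eq_enorm_sub]
    exact (BG_sub hgM (hgn n) R x).trans (mul_le_mul' (h3 n) le_rfl)
  have hmeas : ∀ n, Measurable (fun x => ⨆ k, ‖BG (gn n) (N k) x‖ₑ) := fun n =>
    Measurable.iSup fun k => (BG_meas (h2 n).continuous.measurable (N k)).enorm
  have hpt : ∀ x, (⨆ k, ‖BG g (N k) x‖ₑ) ^ 2 ≤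
      liminf (fun n => (⨆ k, ‖BG (gn n) (N k) x‖ₑ) ^ 2) atTop := by
    intro x
    have h4 : (⨆ k, ‖BG g (N k) x‖ₑ) ≤
        liminf (fun n => ⨆ k, ‖BG (gn n) (N k) x‖ₑ) atTop := by
      refine iSup_le fun k => ?_
      have h5 : Tendsto (fun n => ‖BG (gn n) (N k) x‖ₑ) atTop (𝓝 ‖BG g (N k) x‖ₑ) :=
        (hlim (N k) x).enorm
      rw [← h5.liminf_eq]
      refine liminf_le_liminf (Eventually.of_forall fun n => ?_)
      exact le_iSup (fun k => ‖BG (gn n) (N k) x‖ₑ) k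
    have h6 : (liminf (fun n => ⨆ k, ‖BG (gn n) (N k) x‖ₑ) atTop) ^ 2 =
        liminf (fun n => (⨆ k, ‖BG (gn n) (N k) x‖ₑ) ^ 2) atTop := by
      have hmono : Monotone (fun y : ℝ≥0∞ => y ^ 2) := fun a b hab => pow_le_pow_left' hab 2
      exact hmono.map_liminf_of_continuousAt (F := atTop)
        (fun n => ⨆ k, ‖BG (gn n) (N k) x‖ₑ) (ENNReal.continuous_pow 2).continuousAt
    rw [← h6]
    exact pow_le_pow_left' h4 2
  have hint : ∀ n, ∫⁻ x, (⨆ k, ‖BG (gn n) (N k) x‖ₑ) ^ 2 ≤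
      C * (eLpNorm g 2 volume + ENNReal.ofReal (1 / ((n : ℝ) + 1))) ^ 2 := by
    intro n
    have h8 := hC N (fn n) hN hN2 (fn n).continuous.measurable (hfi n) ((fn n).memLp 2)
    simp_rw [hS] at h8
    refine h8.trans ?_
    have h9 : ∫⁻ x, ‖(fn n : E 2 → ℂ) x‖ₑ ^ 2 = eLpNorm (gn n) 2 volume ^ 2 := by
      rw [← lp_sq, ← hF n, Pool.Agent.H25.Plancherel.eLpNorm_fourier_eq (hfi n) ((fn n).memLp 2)]
    rw [h9]
    gcongr
    have h7 : gn n = g - (g - gn n) := by simp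
    calc eLpNorm (gn n) 2 volume = eLpNorm (g - (g - gn n)) 2 volume := by rw [← h7]
      _ ≤ eLpNorm g 2 volume + eLpNorm (g - gn n) 2 volume :=
          eLpNorm_sub_le hgM.1 (hgM.sub (hgn n)).1 (by norm_num)
      _ ≤ _ := by gcongr; exact h3 n
  have hlim2 : Tendsto (fun n : ℕ => (C : ℝ≥0∞) *
      (eLpNorm g 2 volume + ENNReal.ofReal (1 / ((n : ℝ) + 1))) ^ 2) atTop
      (𝓝 (C * (eLpNorm g 2 volume) ^ 2)) := by
    have h4 : Tendsto (fun n : ℕ => ENNReal.ofReal (1 / ((n : ℝ) + 1))) atTop (𝓝 0) := by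
      rw [← ENNReal.ofReal_zero]
      exact ENNReal.tendsto_ofReal tendsto_one_div_add_atTop_nhds_zero_nat
    have h5 : Tendsto (fun n : ℕ => eLpNorm g 2 volume + ENNReal.ofReal (1 / ((n : ℝ) + 1))) atTop
        (𝓝 (eLpNorm g 2 volume)) := by
      simpa using tendsto_const_nhds.add h4
    exact ENNReal.Tendsto.const_mul (ENNReal.Tendsto.pow h5) (Or.inr ENNReal.coe_ne_top)
  calc ∫⁻ x, (⨆ k, ‖BG g (N k) x‖ₑ) ^ 2
      ≤ ∫⁻ x, liminf (fun n => (⨆ k, ‖BG (gn n) (N k) x‖ₑ) ^ 2) atTop := lintegral_mono hpt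
    _ ≤ liminf (fun n => ∫⁻ x, (⨆ k, ‖BG (gn n) (N k) x‖ₑ) ^ 2) atTop :=
        lintegral_liminf_le fun n => (hmeas n).pow_const 2
    _ ≤ liminf (fun n : ℕ => (C : ℝ≥0∞) *
          (eLpNorm g 2 volume + ENNReal.ofReal (1 / ((n : ℝ) + 1))) ^ 2) atTop :=
        liminf_le_liminf (Eventually.of_forall hint)
    _ = C * (eLpNorm g 2 volume) ^ 2 := hlim2.liminf_eq
    _ ≤ _ := by
        rw [lp_sq g]
        gcongr
        simp

end Pool.Agent.GRH
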