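import Pool.Agent.MBS.Defs

set_option autoImplicit false

/-!
# GRH: growth of the disc partial sums of all functions in `L²(ℝ²)` (MP_ee701d_an)

`L(R) = log (3 + log (3 + R))`. For every `g ∈ L²(ℝ²)` and every unit disc `B`,
`∫_B sup_R (|S_R g| / L(R)^6)² ≤ C ∫ |g|²`, hence `S_R g = o(L(R)^6)` almost everywhere.
-/

namespace Pool.Agent.GRH

open MeasureTheory FourierTransform Set Filter Topology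
open scoped ENNReal NNReal
open Pool.Agent.MBS (E ex S Sstar)

/-- the disc integral of `g` -/
noncomputable def BG (g : E 2 → ℂ) (R : ℝ) (x : E 2) : ℂ :=
  ∫ ξ in Metric.closedBall (0 : E 2) R, g ξ * ex x ξ

/-- the iterated logarithm -/
noncomputable def LL (R : ℝ) : ℝ := Real.log (3 + Real.log (3 + R))

/-- the radii `exp (exp (2^k))` -/
noncomputable def NN (k : ℕ) : ℝ := Real.exp (Real.exp (2 ^ k))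

/-- the maximal function with the weight `L(R)^6` -/
noncomputable def MG (g : E 2 → ℂ) (x : E 2) : ℝ≥0∞ :=
  ⨆ (R : ℝ) (_ : 0 < R), ‖BG g R x‖ₑ / ENNReal.ofReal (LL R ^ 6)

/-- first part of `MP_ee701d_an.LogLogLocal` (landed, `Pool.Agent.SEnd.fFA1s`) -/
def T_LLL : Prop := ∃ C : ℝ≥0, ∀ (g : E 2 → ℂ) (x0 : E 2), Measurable g →
  ∫⁻ x in Metric.closedBall x0 1, (⨆ (R : ℝ) (_ : 0 < R), ‖BG g R x‖ₑ) ^ 2 ≤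
    C * ∫⁻ ξ, ‖g ξ‖ₑ ^ 2 * ENNReal.ofReal (LL ‖ξ‖ ^ 12)

/-- `MP_ee701d_an.LogLogSeparated` (landed, `Pool.Agent.SEnd.fDSs`) -/
def T_SEP : Prop := ∃ C : ℝ≥0, ∀ (δ : ℝ) (A : Set ℝ) (f : E 2 → ℂ), 0 < δ → δ ≤ 1 / 2 →
  (∀ R ∈ A, 0 < R) → (∀ R ∈ A, ∀ R' ∈ A, R < R' → R + δ * R' ≤ R') →
  Measurable f → Integrable f → MemLp f 2 →
  ∫⁻ x, (⨆ R ∈ A, ‖S f R x‖ₑ) ^ 2 ≤
    C * ENNReal.ofReal (Real.log (3 + Real.log δ⁻¹) ^ 12) * ∫⁻ x, ‖f x‖ₑ ^ 2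

/-- LAC: lacunary radii, all `g ∈ L²` -/
def T_LAC : Prop := ∃ C : ℝ≥0, ∀ (N : ℕ → ℝ) (g : E 2 → ℂ), (∀ k, 0 < N k) →
  (∀ k, 2 * N k ≤ N (k + 1)) → Measurable g →
  ∫⁻ x, (⨆ k, ‖BG g (N k) x‖ₑ) ^ 2 ≤ C * ∫⁻ ξ, ‖g ξ‖ₑ ^ 2

/-- GRW: the maximal inequality for all `g ∈ L²` -/
def T_GRW : Prop := ∃ C : ℝ≥0, ∀ (g : E 2 → ℂ) (x0 : E 2), Measurable g →
  ∫⁻ x in Metric.closedBall x0 1, MG g x ^ 2 ≤ C * ∫⁻ ξ, ‖g ξ‖ₑ ^ 2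

/-- GAE: growth almost everywhere -/
def T_GAE : Prop := ∀ g : E 2 → ℂ, Measurable g → ∫⁻ ξ, ‖g ξ‖ₑ ^ 2 ≠ ⊤ →
  ∀ᵐ x, Tendsto (fun R : ℝ => ‖BG g R x‖ / LL R ^ 6) atTop (𝓝 0)

end Pool.Agent.GRH
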